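import Pool.Agent.H13.TFQ.H71.DB.Tors
import Pool.Agent.H13.TFQ.M45
import Pool.Agent.H13.TFQ.M56

/-!
# Vanishing of the Dennis traces implies torsion (conclusion)
-/

set_option autoImplicit false

open Matrix
open scoped Classical

universe t u v w

namespace Pool.Agent.H71.DB

open Pool.Agent.H71.FJ (IdemMat K0 K0.mk K0.map K0.map_map K0.push K0.rk LiftSys IsPrim isPrim_map LT LT_rep LT_eq_sum LT_aut exists_rep_lift dlt dlt_comm cyc_comm mulAut_finite IsInd zpowers_aut sum_ind isPrim_neg)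
open Pool.Agent.H95.WH (K1 K1.mk K1.map K1.map_mk FamSub conjHom FinSub)

section

variable {k : Type u} [Field k] {K : Type t} [Field K] (L : BLift K) (i : k →+* K)
  {G : Type v} [Group G]

theorem cent_of_gen {D : Subgroup G} (c : D) (hc : Subgroup.zpowers c = ⊤) {x : G}
    (hx : x ∈ Subgroup.centralizer ({(c : G)} : Set G)) :
    x ∈ Subgroup.centralizer (D : Set G) := by
  rw [Subgroup.mem_centralizer_iff]
  intro a ha
  have h1 : (⟨a, ha⟩ : D) ∈ Subgroup.zpowers c := by rw [hc]; trivial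
  obtain ⟨m, hm⟩ := Subgroup.mem_zpowers_iff.1 h1
  have hm' : (c : G) ^ m = a := by rw [← Subgroup.coe_zpow, hm]
  rw [← hm']
  have h2 : Commute (c : G) x := Subgroup.mem_centralizer_iff.1 hx c (Set.mem_singleton _)
  exact h2.zpow_left m

/-- the homomorphism on the centralizer of a generator -/
def genHom {Λ : Type w} [AddCommGroup Λ] {D : Subgroup G} (c : D)
    (hc : Subgroup.zpowers c = ⊤) (ν : CAb D →+ Λ) :
    Subgroup.centralizer ({(c : G)} : Set G) →* Multiplicative Λ where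
  toFun x := Multiplicative.ofAdd (ν (cab ⟨x, cent_of_gen c hc x.2⟩))
  map_one' := by
    have h : cab (⟨(1 : Subgroup.centralizer ({(c : G)} : Set G)), cent_of_gen c hc (1 :
        Subgroup.centralizer ({(c : G)} : Set G)).2⟩ : Subgroup.centralizer (D : Set G)) = 0 := by
      change Additive.ofMul (Abelianization.of (1 : Subgroup.centralizer (D : Set G))) = 0
      rw [map_one]
      rfl
    rw [h, map_zero]
    rfl
  map_mul' x y := by
    rw [← ofAdd_add, ← map_add]
    rfl

theorem conj_cent {D : Subgroup G} {w : MulAut D} {g : G}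
    (hg : ∀ d : D, (w d : G) = g * d * g⁻¹) (z : Subgroup.centralizer (D : Set G)) :
    g * z * g⁻¹ ∈ Subgroup.centralizer (D : Set G) := by
  rw [Subgroup.mem_centralizer_iff]
  intro a ha
  have h1 : a = g * (w.symm ⟨a, ha⟩ : D) * g⁻¹ := by
    rw [← hg, w.apply_symm_apply]
  have h2 := Subgroup.mem_centralizer_iff.1 z.2 (w.symm ⟨a, ha⟩ : D) (w.symm ⟨a, ha⟩ : D).2
  calc a * (g * z * g⁻¹) = g * ((w.symm ⟨a, ha⟩ : D) * z) * g⁻¹ := by
        conv_lhs => rw [h1]
        group
    _ = g * (z * (w.symm ⟨a, ha⟩ : D)) * g⁻¹ := by rw [h2]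
    _ = g * z * g⁻¹ * a := by
        conv_rhs => rw [h1]
        group

theorem sy_ind (D₀ : FamSub G FinSub) (w : MulAut D₀.1) (g : G)
    (hg : ∀ d : D₀.1, (w d : G) = g * d * g⁻¹) (y : K0 (MonoidAlgebra k D₀.1))
    (z : Subgroup.centralizer (D₀.1 : Set G)) :
    sy D₀ (K0.map (MonoidAlgebra.mapDomainRingHom k w.toMonoidHom) y)
      ⟨g * z * g⁻¹, conj_cent hg z⟩ = sy D₀ y z := by
  have h1 : ∀ x ∈ D₀.1, g * x * g⁻¹ ∈ D₀.1 := by
    intro x hx
    rw [← hg ⟨x, hx⟩]
    exact (w ⟨x, hx⟩).2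
  have h2 : w.toMonoidHom = conjHom g D₀.1 D₀.1 h1 := by
    apply MonoidHom.ext
    intro a
    exact Subtype.ext (hg a)
  rw [h2, sy_conj]
  congr 1
  apply Subtype.ext
  change g⁻¹ * (g * (z : G) * g⁻¹) * g = z
  group

theorem torsion_over (D₀ : FamSub G FinSub) [IsCyclic D₀.1]
    (ho : ∀ h : D₀.1, (orderOf h : k) ≠ 0)
    (hsep : ∀ b : CAb D₀.1, (∀ ν : CAb D₀.1 →+ L.Lam, ν b = 0) → ∃ m : ℤ, m ≠ 0 ∧ m • b = 0)
    (N : ℕ) (y : Fin N → K0 (MonoidAlgebra k D₀.1)) (hy : ∀ j, IsPrim L.sys i (y j))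
    (z : Fin N → Subgroup.centralizer (D₀.1 : Set G))
    (hv : VanOn L i (IsGen D₀) (asmH k G (∑ j, sy D₀ (y j) (z j)))) :
    ∃ m : ℤ, m ≠ 0 ∧ m • ∑ j, sy D₀ (y j) (z j) = 0 := by
  have : Finite D₀.1 := D₀.2
  have : Fintype D₀.1 := Fintype.ofFinite D₀.1
  have := mulAut_finite D₀.1
  have : Fintype (MulAut D₀.1) := Fintype.ofFinite _
  obtain ⟨M, hM, hv⟩ := hv
  choose M1 hM1 hS using fun j => dtr_sy (k := k) L i D₀ (z j)
  obtain ⟨M', hM'def⟩ : ∃ M' : ℤ, M' = M * ∏ j, M1 j := ⟨_, rfl⟩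
  have hM' : M' ≠ 0 := by
    rw [hM'def]
    exact mul_ne_zero hM (Finset.prod_ne_zero_iff.2 fun j _ => hM1 j)
  have hS' : ∀ c : G, IsGen D₀ c → ∀ (hc : IsOfFinOrder c)
      (lam : Subgroup.centralizer ({c} : Set G) →* Multiplicative L.Lam) (n : ℕ),
      (M' : L.sys.B n) * ∑ j, ∑ a : D₀.1, L.th n ((cocC c lam L.tf hc).L (z j : G) (a : G)) *
        LT L.sys n i (dlt (L.sys.B n) a) (dlt_comm _ a) (y j) = 0 := by
    intro c hgen hc lam n
    have h1 := hv c hgen hc lam n
    rw [map_sum, map_sum] at h1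
    have h2 : ∀ j, (M' : L.sys.B n) * (dtr L i c hc lam n (asmH k G (sy D₀ (y j) (z j))) -
        ∑ a : D₀.1, L.th n ((cocC c lam L.tf hc).L (z j : G) (a : G)) *
          LT L.sys n i (dlt (L.sys.B n) a) (dlt_comm _ a) (y j)) = 0 := by
      intro j
      have h3 := hS j c hc lam n (y j)
      have h4 : (M' : L.sys.B n) = (M : L.sys.B n) *
          (∏ l ∈ Finset.univ.erase j, (M1 l : L.sys.B n)) * (M1 j : L.sys.B n) := by
        rw [hM'def, mul_assoc, Finset.prod_erase_mul _ _ (Finset.mem_univ j)]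
        push_cast
        rfl
      rw [h4, mul_assoc, h3, mul_zero]
    have h5 : (M' : L.sys.B n) * ∑ j, dtr L i c hc lam n (asmH k G (sy D₀ (y j) (z j))) =
        0 := by
      rw [hM'def]
      push_cast
      rw [mul_assoc, mul_left_comm, h1, mul_zero]
    have h6 : (M' : L.sys.B n) * ∑ j, (dtr L i c hc lam n (asmH k G (sy D₀ (y j) (z j))) -
        ∑ a : D₀.1, L.th n ((cocC c lam L.tf hc).L (z j : G) (a : G)) *
          LT L.sys n i (dlt (L.sys.B n) a) (dlt_comm _ a) (y j)) = 0 := by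
      rw [Finset.mul_sum]
      exact Finset.sum_eq_zero fun j _ => h2 j
    rw [Finset.sum_sub_distrib, mul_sub, h5, zero_sub, neg_eq_zero] at h6
    exact h6
  let ι := {w : MulAut D₀.1 // IsInd D₀.1 w}
  have : Fintype ι := Fintype.ofFinite _
  choose g hg using fun w : ι => w.2
  obtain ⟨m, hm, h⟩ := det_tensor L i ho hsep (syB (k := k) D₀)
    (fun p : ι × Fin N => K0.map (MonoidAlgebra.mapDomainRingHom k p.1.1.toMonoidHom) (y p.2))
    (fun p : ι × Fin N => cab ⟨g p.1 * z p.2 * (g p.1)⁻¹, conj_cent (hg p.1) (z p.2)⟩) M' hM' (by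
      intro n c ν
      by_cases hc : Subgroup.zpowers c = ⊤
      · have hcfin : IsOfFinOrder (c : G) := D₀.1.subtype.isOfFinOrder (isOfFinOrder_of_finite c)
        rw [← hS' (c : G) ⟨c, rfl, hc⟩ hcfin (genHom c hc ν) n]
        congr 1
        rw [Fintype.sum_prod_type_right]
        refine Finset.sum_congr rfl fun j _ => ?_
        have h1 : ∑ a : D₀.1, L.th n ((cocC (c : G) (genHom c hc ν) L.tf hcfin).L (z j : G)
            (a : G)) * LT L.sys n i (dlt (L.sys.B n) a) (dlt_comm _ a) (y j) =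
            ∑ a ∈ Finset.univ.filter (fun d : D₀.1 => IsConj (c : G) (d : G)),
              L.th n ((cocC (c : G) (genHom c hc ν) L.tf hcfin).L (z j : G) (a : G)) *
                LT L.sys n i (dlt (L.sys.B n) a) (dlt_comm _ a) (y j) := by
          rw [Finset.sum_filter]
          refine Finset.sum_congr rfl fun a _ => ?_
          by_cases ha : IsConj (c : G) (a : G)
          · rw [if_pos ha]
          · rw [if_neg ha, cocC_not_conj _ _ L.tf hcfin ha, map_zero, zero_mul]
        rw [h1, ← sum_ind D₀.1 c hc (fun a => L.th n ((cocC (c : G) (genHom c hc ν) L.tf hcfin).L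
          (z j : G) (a : G)) * LT L.sys n i (dlt (L.sys.B n) a) (dlt_comm _ a) (y j))]
        have h2 : ∀ w : ι, L.th n (ν (cab ⟨g w * z j * (g w)⁻¹, conj_cent (hg w) (z j)⟩)) *
            LT L.sys n i (dlt (L.sys.B n) c) (dlt_comm _ c)
              (K0.map (MonoidAlgebra.mapDomainRingHom k w.1.toMonoidHom) (y j)) =
            L.th n ((cocC (c : G) (genHom c hc ν) L.tf hcfin).L (z j : G)
              ((w.1.symm c : D₀.1) : G)) *
              LT L.sys n i (dlt (L.sys.B n) (w.1.symm c)) (dlt_comm _ (w.1.symm c)) (y j) := by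
          intro w
          rw [LT_aut L.sys i n w.1 c (y j)]
          congr 2
          have h3 : g w * ((w.1.symm c : D₀.1) : G) * (g w)⁻¹ = (c : G) := by
            rw [← hg w, w.1.apply_symm_apply]
          have h4 : ((w.1.symm c : D₀.1) : G) * (z j : G) = (z j : G) * (w.1.symm c : D₀.1) :=
            Subgroup.mem_centralizer_iff.1 (z j).2 _ (w.1.symm c : D₀.1).2
          rw [cocC_eval (c : G) (genHom c hc ν) L.tf hcfin h3 h4, lf, dif_pos]
          · rfl
          · rw [Subgroup.mem_centralizer_iff]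
            intro a ha
            rw [Set.mem_singleton_iff] at ha
            rw [ha]
            exact Subgroup.mem_centralizer_iff.1 (conj_cent (hg w) (z j)) c c.2
        rw [Finset.sum_congr rfl fun w _ => h2 w]
        exact (Finset.sum_subtype _ (fun w => by simp)
          (fun w : MulAut D₀.1 => L.th n ((cocC (c : G) (genHom c hc ν) L.tf hcfin).L (z j : G)
              ((w.symm c : D₀.1) : G)) *
              LT L.sys n i (dlt (L.sys.B n) (w.symm c)) (dlt_comm _ (w.symm c)) (y j))).symm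
      · rw [Finset.sum_eq_zero, mul_zero]
        intro p _
        rw [LT_aut L.sys i n p.1.1 c (y p.2), hy p.2 n _ (zpowers_aut p.1.1.symm c hc), mul_zero])
  have h7 : ∑ p : ι × Fin N, syB D₀
      (K0.map (MonoidAlgebra.mapDomainRingHom k p.1.1.toMonoidHom) (y p.2))
      (cab ⟨g p.1 * z p.2 * (g p.1)⁻¹, conj_cent (hg p.1) (z p.2)⟩) =
      (Fintype.card ι : ℤ) • ∑ j, sy D₀ (y j) (z j) := by
    rw [Fintype.sum_prod_type]
    have h8 : ∀ w : ι, ∑ j : Fin N, syB D₀
        (K0.map (MonoidAlgebra.mapDomainRingHom k w.1.toMonoidHom) (y j))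
        (cab ⟨g w * z j * (g w)⁻¹, conj_cent (hg w) (z j)⟩) = ∑ j, sy D₀ (y j) (z j) := by
      intro w
      refine Finset.sum_congr rfl fun j _ => ?_
      rw [syB_apply]
      exact sy_ind D₀ w.1 (g w) (hg w) (y j) (z j)
    rw [Finset.sum_congr rfl fun w _ => h8 w, Finset.sum_const, Finset.card_univ, natCast_zsmul]
  rw [h7, smul_smul] at h
  have hne : Nonempty ι := ⟨⟨1, 1, fun d => by simp⟩⟩
  exact ⟨m * Fintype.card ι, mul_ne_zero hm (by exact_mod_cast Fintype.card_ne_zero), h⟩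

/-- Sums of primitive symbols. -/
theorem split_list (D₀ : FamSub G FinSub) [IsCyclic D₀.1] (l : List (H1K0 k G))
    (hl : ∀ w ∈ l, w ∈ PSet L.sys i G) :
    ∃ w₀ ∈ OverS L i D₀, ∃ l' : List (H1K0 k G),
      (∀ w ∈ l', w ∈ PSet L.sys i G ∧ w ∉ OverS L i D₀) ∧ l'.length ≤ l.length ∧
        l.sum = w₀ + l'.sum := by
  induction l with
  | nil => exact ⟨0, AddSubgroup.zero_mem _, [], by simp, le_rfl, by simp⟩
  | cons w l ih =>
    obtain ⟨w₀, hw₀, l', h1, h2, h3⟩ := ih (fun w hw => hl w (List.mem_cons_of_mem _ hw))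
    by_cases hw : w ∈ OverS L i D₀
    · refine ⟨w + w₀, AddSubgroup.add_mem _ hw hw₀, l', h1, h2.trans (by simp), ?_⟩
      rw [List.sum_cons, h3, add_assoc]
    · refine ⟨w₀, hw₀, w :: l', ?_, by simpa using h2, ?_⟩
      · intro w' hw'
        rcases List.mem_cons.1 hw' with rfl | hw'
        · exact ⟨hl _ List.mem_cons_self, hw⟩
        · exact h1 w' hw'
      · rw [List.sum_cons, List.sum_cons, h3]
        abel

variable (hsep : ∀ D : FamSub G FinSub, IsCyclic D.1 → (∀ h : D.1, (orderOf h : k) ≠ 0) →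
  ∀ b : CAb D.1, (∀ ν : CAb D.1 →+ L.Lam, ν b = 0) → ∃ m : ℤ, m ≠ 0 ∧ m • b = 0)

include hsep in
theorem torsion_list (N : ℕ) : ∀ l : List (H1K0 k G), l.length = N →
    (∀ w ∈ l, w ∈ PSet L.sys i G) → VanOn L i (fun _ => True) (asmH k G l.sum) →
    ∃ m : ℤ, m ≠ 0 ∧ m • l.sum = 0 := by
  induction N using Nat.strong_induction_on with
  | _ N ih =>
    intro l hN hl hv
    match l, hN, hl, hv with
    | [], _, _, _ => exact ⟨1, one_ne_zero, by simp⟩
    | w :: l, hN, hl, hv =>
      obtain ⟨D₀, hD₀, ho, y₀, hy₀, z₀, hw⟩ := hl w List.mem_cons_self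
      have hwO : w ∈ OverS L i D₀ := by
        rw [hw]
        exact AddSubgroup.subset_closure ⟨y₀, hy₀, z₀, rfl⟩
      obtain ⟨w₁, hw₁, l', h1, h2, h3⟩ := split_list L i D₀ l
        (fun w hw => hl w (List.mem_cons_of_mem _ hw))
      obtain ⟨n, y, z, hy, hfam⟩ := exists_fam L i D₀ (AddSubgroup.add_mem _ hwO hw₁)
      have e1 : (w :: l).sum = (w + w₁) + l'.sum := by rw [List.sum_cons, h3, add_assoc]
      have hrest : VanOn L i (IsGen D₀) (asmH k G l'.sum) := by
        rw [map_list_sum]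
        apply VanOn.list_sum
        intro a ha
        obtain ⟨w', hw', rfl⟩ := List.mem_map.1 ha
        obtain ⟨⟨D, hD, _, y', hy', z', rfl⟩, hno⟩ := h1 w' hw'
        exact vanOn_not_over L i D₀ D y' hy' z' hno
      have hv0 : VanOn L i (IsGen D₀) (asmH k G (w + w₁)) := by
        have e2 : asmH k G (w + w₁) = asmH k G (w :: l).sum - asmH k G l'.sum := by
          rw [e1, map_add (asmH k G) (w + w₁), add_sub_cancel_right]
        rw [e2]
        exact (hv.mono fun _ _ => trivial).sub hrest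
      rw [hfam] at hv0
      obtain ⟨m, hm, hm0⟩ := torsion_over L i D₀ ho (hsep D₀ hD₀ ho) n y hy z hv0
      rw [← hfam] at hm0
      have hv1 : VanOn L i (fun _ => True) (asmH k G l'.sum) := by
        apply VanOn.of_smul hm
        have e3 : m • asmH k G l'.sum = m • asmH k G (w :: l).sum := by
          rw [e1, map_add (asmH k G) (w + w₁), smul_add, ← map_zsmul (asmH k G) m
            (w + w₁), hm0, map_zero, zero_add]
        rw [e3]
        obtain ⟨M, hM, hv⟩ := hv
        refine ⟨M, hM, fun c hP hc lam n => ?_⟩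
        rw [map_zsmul, zsmul_eq_mul, mul_left_comm, hv c hP hc lam n, mul_zero]
      obtain ⟨m', hm', h4⟩ := ih l'.length (by rw [← hN, List.length_cons]; omega) l' rfl
        (fun w hw => (h1 w hw).1) hv1
      refine ⟨m * m', mul_ne_zero hm hm', ?_⟩
      rw [e1, smul_add, mul_smul m m' l'.sum, h4, smul_zero, add_zero, mul_comm, mul_smul, hm0,
        smul_zero]

theorem pSet_neg {w : H1K0 k G} (hw : w ∈ PSet L.sys i G) : -w ∈ PSet L.sys i G := by
  obtain ⟨D, hD, ho, y, hy, z, rfl⟩ := hw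
  refine ⟨D, hD, ho, -y, isPrim_neg L.sys i hy, z, ?_⟩
  rw [← syH_apply, ← syH_apply, map_neg]

theorem exists_list {w : H1K0 k G} (hw : w ∈ AddSubgroup.closure (PSet L.sys i G)) :
    ∃ l : List (H1K0 k G), (∀ w ∈ l, w ∈ PSet L.sys i G) ∧ l.sum = w := by
  induction hw using AddSubgroup.closure_induction with
  | mem x hx => exact ⟨[x], by simpa using hx, by simp⟩
  | zero => exact ⟨[], by simp, rfl⟩
  | add x y _ _ hx hy =>
    obtain ⟨l, h1, rfl⟩ := hx
    obtain ⟨l', h1', rfl⟩ := hy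
    refine ⟨l ++ l', ?_, List.sum_append⟩
    intro z hz
    rcases List.mem_append.1 hz with h | h
    · exact h1 z h
    · exact h1' z h
  | neg x _ hx =>
    obtain ⟨l, h1, rfl⟩ := hx
    refine ⟨l.map (- ·), ?_, ?_⟩
    · intro z hz
      obtain ⟨y, hy, rfl⟩ := List.mem_map.1 hz
      exact pSet_neg L i (h1 y hy)
    · have hneg : ∀ l : List (H1K0 k G), (l.map (- ·)).sum = - l.sum := by
        intro l
        induction l with
        | nil => simp
        | cons a l ih => rw [List.map_cons, List.sum_cons, List.sum_cons, ih, neg_add]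
      exact hneg l

include hsep in
/-- If all traces of `asmH w` vanish up to a uniform multiple then `w` is torsion. -/
theorem torsion_of_vanOn (w : H1K0 k G) (hv : VanOn L i (fun _ => True) (asmH k G w)) :
    ∃ m : ℤ, m ≠ 0 ∧ m • w = 0 := by
  obtain ⟨m, hm, hw⟩ := mem_sat L.sys i w
  obtain ⟨l, h1, hl⟩ := exists_list L i hw
  obtain ⟨m', hm', h2⟩ := torsion_list L i hsep l.length l rfl h1 (by
    rw [hl, map_zsmul]
    obtain ⟨M, hM, hv⟩ := hv
    refine ⟨M, hM, fun c hP hc lam n => ?_⟩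
    rw [map_zsmul, zsmul_eq_mul, mul_left_comm, hv c hP hc lam n, mul_zero])
  exact ⟨m' * m, mul_ne_zero hm' hm, by rw [mul_smul, ← hl, h2]⟩

end

end Pool.Agent.H71.DB
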