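import Pool.Agent.H13.TFQ.H71.FJ.Main
import Pool.Agent.H13.TFQ.M61

/-!
# Vanishing of the Dennis traces implies torsion
-/

set_option autoImplicit false

open Matrix
open scoped Classical

universe t u v w

namespace Pool.Agent.H71.DB

open Pool.Agent.H71.FJ (IdemMat K0 K0.mk K0.map K0.map_map K0.push K0.rk LiftSys IsPrim isPrim_map LT LT_rep LT_eq_sum LT_aut exists_rep_lift dlt dlt_comm cyc_comm mulAut_finite IsInd zpowers_aut sum_ind isPrim_neg)
open Pool.Agent.H95.WH (K1 K1.mk K1.map K1.map_mk FamSub conjHom FinSub)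

section SyB

variable {k : Type u} [CommRing k] {G : Type v} [Group G]

/-- The centralizer made abelian. -/
abbrev CAb (F : Subgroup G) : Type v :=
  Additive (Abelianization (Subgroup.centralizer (F : Set G)))

/-- the class of an element of the centralizer -/
def cab {F : Subgroup G} (z : Subgroup.centralizer (F : Set G)) : CAb F :=
  Additive.ofMul (Abelianization.of z)

/-- The symbol as a biadditive map. -/
noncomputable def syB (F : FamSub G FinSub) :
    K0 (MonoidAlgebra k F.1) →+ CAb F.1 →+ H1K0 k G :=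
  AddMonoidHom.mk'
    (fun x => MonoidHom.toAdditiveLeft (Abelianization.lift
      ({ toFun := fun z => Multiplicative.ofAdd (sy F x z)
         map_one' := by
          have h := sy_mul F x 1 1
          rw [one_mul] at h
          rw [left_eq_add.1 h]
          rfl
         map_mul' := fun z z' => by rw [sy_mul]; rfl } :
        Subgroup.centralizer (F.1 : Set G) →* Multiplicative (H1K0 k G))))
    (by
      intro x y
      ext z
      exact sy_add F x y z)

theorem syB_apply (F : FamSub G FinSub) (x : K0 (MonoidAlgebra k F.1))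
    (z : Subgroup.centralizer (F.1 : Set G)) : syB F x (cab z) = sy F x z := rfl

end SyB

section Van

variable {k : Type u} [Field k] {K : Type t} [Field K] (L : BLift K) (i : k →+* K)
  {G : Type v} [Group G]

/-- The trace of an element for `c`, `lam` and `n`. -/
noncomputable def dtr (c : G) (hc : IsOfFinOrder c)
    (lam : Subgroup.centralizer ({c} : Set G) →* Multiplicative L.Lam) (n : ℕ) :
    K1 (MonoidAlgebra k G) →+ L.sys.B n :=
  ((cocC c lam L.tf hc).dn L n).comp (K1.map (MonoidAlgebra.mapRingHom G i))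

/-- Vanishing of a uniform multiple of all traces for the elements in `P`. -/
def VanOn (P : G → Prop) (x : K1 (MonoidAlgebra k G)) : Prop :=
  ∃ M : ℤ, M ≠ 0 ∧ ∀ c, P c → ∀ (hc : IsOfFinOrder c)
    (lam : Subgroup.centralizer ({c} : Set G) →* Multiplicative L.Lam) (n : ℕ),
    (M : L.sys.B n) * dtr L i c hc lam n x = 0

variable {L i} {P : G → Prop}

theorem VanOn.mono {Q : G → Prop} (hPQ : ∀ c, Q c → P c) {x : K1 (MonoidAlgebra k G)}
    (h : VanOn L i P x) : VanOn L i Q x := by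
  obtain ⟨M, hM, h⟩ := h
  exact ⟨M, hM, fun c hc => h c (hPQ c hc)⟩

theorem VanOn.zero : VanOn L i P (0 : K1 (MonoidAlgebra k G)) :=
  ⟨1, one_ne_zero, fun c _ hc lam n => by rw [map_zero, mul_zero]⟩

theorem VanOn.add {x y : K1 (MonoidAlgebra k G)} (hx : VanOn L i P x) (hy : VanOn L i P y) :
    VanOn L i P (x + y) := by
  obtain ⟨M, hM, h⟩ := hx
  obtain ⟨N, hN, h'⟩ := hy
  refine ⟨M * N, mul_ne_zero hM hN, fun c hP hc lam n => ?_⟩
  have h1 := h c hP hc lam n
  have h2 := h' c hP hc lam n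
  rw [map_add]
  push_cast
  calc (M : L.sys.B n) * N * (dtr L i c hc lam n x + dtr L i c hc lam n y)
      = N * (M * dtr L i c hc lam n x) + M * (N * dtr L i c hc lam n y) := by ring
    _ = 0 := by rw [h1, h2, mul_zero, mul_zero, add_zero]

theorem VanOn.neg {x : K1 (MonoidAlgebra k G)} (hx : VanOn L i P x) : VanOn L i P (-x) := by
  obtain ⟨M, hM, h⟩ := hx
  refine ⟨M, hM, fun c hP hc lam n => ?_⟩
  rw [map_neg, mul_neg, h c hP hc lam n, neg_zero]

theorem VanOn.sub {x y : K1 (MonoidAlgebra k G)} (hx : VanOn L i P x) (hy : VanOn L i P y) :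
    VanOn L i P (x - y) := by
  rw [sub_eq_add_neg]
  exact hx.add hy.neg

theorem VanOn.of_smul {x : K1 (MonoidAlgebra k G)} {m : ℤ} (hm : m ≠ 0)
    (hx : VanOn L i P (m • x)) : VanOn L i P x := by
  obtain ⟨M, hM, h⟩ := hx
  refine ⟨M * m, mul_ne_zero hM hm, fun c hP hc lam n => ?_⟩
  have h1 := h c hP hc lam n
  rw [map_zsmul, zsmul_eq_mul] at h1
  push_cast
  rw [mul_assoc]
  exact h1

theorem VanOn.list_sum (l : List (K1 (MonoidAlgebra k G))) (h : ∀ a ∈ l, VanOn L i P a) :
    VanOn L i P l.sum := by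
  induction l with
  | nil => rw [List.sum_nil]; exact VanOn.zero
  | cons a l ih =>
    rw [List.sum_cons]
    exact (h a List.mem_cons_self).add (ih fun b hb => h b (List.mem_cons_of_mem _ hb))

/-- Images of `K₁` of finite groups. -/
theorem vanOn_finite {H : Type w} [Group H] [Finite H] (f : H →* G)
    (x : K1 (MonoidAlgebra k H)) :
    VanOn L i P (K1.map (MonoidAlgebra.mapDomainRingHom k f) x) := by
  have : Fintype H := Fintype.ofFinite H
  exact ⟨(Fintype.card H : ℤ), by exact_mod_cast Fintype.card_ne_zero,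
    fun c _ hc lam n => dn_finite L i f _ n x⟩

variable (L i)

/-- The trace of a symbol up to a uniform multiple. -/
theorem dtr_sy (D : FamSub G FinSub) [Fintype D.1] [IsCyclic D.1]
    (z : Subgroup.centralizer (D.1 : Set G)) :
    ∃ M : ℤ, M ≠ 0 ∧ ∀ (c : G) (hc : IsOfFinOrder c)
      (lam : Subgroup.centralizer ({c} : Set G) →* Multiplicative L.Lam) (n : ℕ)
      (y : K0 (MonoidAlgebra k D.1)),
      (M : L.sys.B n) * (dtr L i c hc lam n (asmH k G (sy D y z)) -
        ∑ a : D.1, L.th n ((cocC c lam L.tf hc).L z (a : G)) *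
          LT L.sys n i (dlt (L.sys.B n) a) (dlt_comm _ a) y) = 0 := by
  obtain ⟨M, hM, h⟩ := dn_gbass L i D.1.subtype (z : G) (cent_comm z)
  refine ⟨M, hM, fun c hc lam n y => ?_⟩
  have h1 := h (cocC c lam L.tf hc) (cocC_supp c lam L.tf hc) n y
  rw [asmH_sy]
  refine Eq.trans ?_ h1
  exact congrArg (fun t => (M : L.sys.B n) * (dtr L i c hc lam n
    (gbass k D.1.subtype (z : G) (cent_comm z) y) - t))
    (LT_eq_sum L.sys n i cyc_comm
      (fun a : D.1 => L.th n ((cocC c lam L.tf hc).L (z : G) (D.1.subtype a)))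
      (((cocC c lam L.tf hc).mapS (L.th n)).L_comm D.1.subtype (z : G) (cent_comm z)) y).symm

/-- Symbols over a cyclic subgroup `D₀`. -/
noncomputable def OverS (D₀ : FamSub G FinSub) [IsCyclic D₀.1] : AddSubgroup (H1K0 k G) :=
  AddSubgroup.closure {w | ∃ y : K0 (MonoidAlgebra k D₀.1), IsPrim L.sys i y ∧
    ∃ z : Subgroup.centralizer (D₀.1 : Set G), w = sy D₀ y z}

theorem over_of_conj (D₀ D : FamSub G FinSub) [IsCyclic D₀.1] [IsCyclic D.1] (c : D₀.1) (d : D.1)
    (hc : Subgroup.zpowers c = ⊤) (hd : Subgroup.zpowers d = ⊤) (h : IsConj (c : G) (d : G))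
    (y : K0 (MonoidAlgebra k D.1)) (hy : IsPrim L.sys i y)
    (z : Subgroup.centralizer (D.1 : Set G)) : sy D y z ∈ OverS L i D₀ := by
  obtain ⟨g, hg⟩ := isConj_iff.1 h
  have hg' : g⁻¹ * (d : G) * g⁻¹⁻¹ = c := by rw [← hg]; group
  have h1 : ∀ x ∈ D₀.1, g * x * g⁻¹ ∈ D.1 := by
    intro x hx
    have : (⟨x, hx⟩ : D₀.1) ∈ Subgroup.zpowers c := by rw [hc]; trivial
    obtain ⟨m, hm⟩ := Subgroup.mem_zpowers_iff.1 this
    have hm' : (c : G) ^ m = x := by
      rw [← Subgroup.coe_zpow, hm]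
    rw [← hm', ← conj_zpow, hg]
    exact D.1.zpow_mem d.2 m
  have h2 : ∀ x ∈ D.1, g⁻¹ * x * g⁻¹⁻¹ ∈ D₀.1 := by
    intro x hx
    have : (⟨x, hx⟩ : D.1) ∈ Subgroup.zpowers d := by rw [hd]; trivial
    obtain ⟨m, hm⟩ := Subgroup.mem_zpowers_iff.1 this
    have hm' : (d : G) ^ m = x := by
      rw [← Subgroup.coe_zpow, hm]
    rw [← hm', ← conj_zpow, hg']
    exact D₀.1.zpow_mem c.2 m
  let e : D.1 ≃* D₀.1 :=
    { toFun := conjHom g⁻¹ D.1 D₀.1 h2
      invFun := conjHom g D₀.1 D.1 h1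
      left_inv := by
        intro x
        apply Subtype.ext
        change g * (g⁻¹ * (x : G) * g⁻¹⁻¹) * g⁻¹ = x
        group
      right_inv := by
        intro x
        apply Subtype.ext
        change g⁻¹ * (g * (x : G) * g⁻¹) * g⁻¹⁻¹ = x
        group
      map_mul' := map_mul _ }
  have hz' : z = conjCent g⁻¹ D.1 D₀.1 h2 (conjCent g D₀.1 D.1 h1 z) := by
    apply Subtype.ext
    change (z : G) = g⁻¹⁻¹ * (g⁻¹ * (z : G) * g) * g⁻¹
    group
  rw [hz']
  refine AddSubgroup.subset_closure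
    ⟨K0.map (MonoidAlgebra.mapDomainRingHom k e.toMonoidHom) y, isPrim_map L.sys i e hy,
      conjCent g D₀.1 D.1 h1 z, ?_⟩
  exact (sy_conj D D₀ g⁻¹ h2 y _).symm

/-- generators of `D₀` -/
def IsGen (D₀ : FamSub G FinSub) (c : G) : Prop := ∃ a : D₀.1, (a : G) = c ∧ Subgroup.zpowers a = ⊤

/-- Symbols over other cyclic groups. -/
theorem vanOn_not_over (D₀ D : FamSub G FinSub) [IsCyclic D₀.1] [IsCyclic D.1]
    (y : K0 (MonoidAlgebra k D.1)) (hy : IsPrim L.sys i y)
    (z : Subgroup.centralizer (D.1 : Set G)) (h : ¬ sy D y z ∈ OverS L i D₀) :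
    VanOn L i (IsGen D₀) (asmH k G (sy D y z)) := by
  have : Finite D.1 := D.2
  have : Fintype D.1 := Fintype.ofFinite D.1
  obtain ⟨M, hM, h1⟩ := dtr_sy L i D z
  refine ⟨M, hM, fun c hgen hc lam n => ?_⟩
  obtain ⟨c₀, hc₀, hgen⟩ := hgen
  have h2 := h1 c hc lam n y
  rw [Finset.sum_eq_zero, sub_zero] at h2
  · exact h2
  · intro a _
    by_cases ha : IsConj c (a : G)
    · have h3 : Subgroup.zpowers a ≠ ⊤ := by
        intro h4
        exact h (over_of_conj L i D₀ D c₀ a hgen h4 (by rw [hc₀]; exact ha) y hy z)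
      rw [hy n a h3, mul_zero]
    · rw [cocC_not_conj c lam L.tf hc ha, map_zero, zero_mul]

/-- Representation of the elements over `D₀`. -/
theorem exists_fam (D₀ : FamSub G FinSub) [IsCyclic D₀.1] {w : H1K0 k G}
    (hw : w ∈ OverS L i D₀) :
    ∃ (N : ℕ) (y : Fin N → K0 (MonoidAlgebra k D₀.1))
      (z : Fin N → Subgroup.centralizer (D₀.1 : Set G)),
      (∀ j, IsPrim L.sys i (y j)) ∧ w = ∑ j, sy D₀ (y j) (z j) := by
  induction hw using AddSubgroup.closure_induction with
  | mem x hx =>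
    obtain ⟨y, hy, z, rfl⟩ := hx
    exact ⟨1, fun _ => y, fun _ => z, fun _ => hy, by simp⟩
  | zero => exact ⟨0, Fin.elim0, Fin.elim0, fun j => j.elim0, by simp⟩
  | add a b _ _ ha hb =>
    obtain ⟨N, y, z, h1, rfl⟩ := ha
    obtain ⟨N', y', z', h1', rfl⟩ := hb
    refine ⟨N + N', Fin.append y y', Fin.append z z', ?_, ?_⟩
    · intro j
      refine Fin.addCases (fun j => ?_) (fun j => ?_) j
      · rw [Fin.append_left]; exact h1 j
      · rw [Fin.append_right]; exact h1' j
    · rw [Fin.sum_univ_add]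
      simp only [Fin.append_left, Fin.append_right]
  | neg a _ ha =>
    obtain ⟨N, y, z, h1, rfl⟩ := ha
    refine ⟨N, fun j => -y j, z, fun j => isPrim_neg L.sys i (h1 j), ?_⟩
    rw [← Finset.sum_neg_distrib]
    refine Finset.sum_congr rfl fun j _ => ?_
    rw [← syH_apply, ← syH_apply, map_neg]

end Van

end Pool.Agent.H71.DB
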